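import Pool.Agent.helper14.AV.Spec

set_option autoImplicit false

namespace Pool.Agent.helper14.AV

theorem SGN_mem (a b x : ℝ × ℝ) (hab : a ≠ b) (h : D a b x = 0) :
    x ∈ ((affineSpan ℝ {a, b} : AffineSubspace ℝ (ℝ × ℝ)) : Set (ℝ × ℝ)) := by
  obtain ⟨a1, a2⟩ := a
  obtain ⟨b1, b2⟩ := b
  obtain ⟨x1, x2⟩ := x
  simp only [D] at h
  have hq : 0 < (b1 - a1) ^ 2 + (b2 - a2) ^ 2 := by
    by_contra hn
    have h1 : (b1 - a1) ^ 2 = 0 := by nlinarith [sq_nonneg (b1 - a1), sq_nonneg (b2 - a2)]
    have h2 : (b2 - a2) ^ 2 = 0 := by nlinarith [sq_nonneg (b1 - a1), sq_nonneg (b2 - a2)]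
    have h3 : b1 - a1 = 0 := by simpa using h1
    have h4 : b2 - a2 = 0 := by simpa using h2
    apply hab
    ext
    · simp only; linarith
    · simp only; linarith
  have hmem := AffineMap.lineMap_mem_affineSpan_pair (k := ℝ)
    (((x1 - a1) * (b1 - a1) + (x2 - a2) * (b2 - a2)) / ((b1 - a1) ^ 2 + (b2 - a2) ^ 2))
    ((a1, a2) : ℝ × ℝ) (b1, b2)
  have hx : AffineMap.lineMap ((a1, a2) : ℝ × ℝ) (b1, b2)
      (((x1 - a1) * (b1 - a1) + (x2 - a2) * (b2 - a2)) / ((b1 - a1) ^ 2 + (b2 - a2) ^ 2))
      = ((x1, x2) : ℝ × ℝ) := by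
    rw [AffineMap.lineMap_apply]
    ext
    · simp only [vsub_eq_sub, vadd_eq_add, Prod.mk_sub_mk, Prod.smul_mk, smul_eq_mul,
        Prod.mk_add_mk]
      field_simp
      linear_combination (b2 - a2) * h
    · simp only [vsub_eq_sub, vadd_eq_add, Prod.mk_sub_mk, Prod.smul_mk, smul_eq_mul,
        Prod.mk_add_mk]
      field_simp
      linear_combination (-(b1 - a1)) * h
  rw [hx] at hmem
  exact hmem

theorem SGN : SGN_stmt := by
  intro a b c d hab hdis
  by_contra hn
  have hn' : D a b c * D a b d ≤ 0 := not_lt.mp hn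
  have key : ∀ s : ℝ, 0 ≤ s → s ≤ 1 → (1 - s) * D a b c + s * D a b d = 0 → False := by
    intro s h0 h1 hs
    have hx : D a b ((1 - s) • c + s • d) = 0 := by
      rw [← hs]
      simp only [D, Prod.fst_add, Prod.snd_add, Prod.smul_fst, Prod.smul_snd, smul_eq_mul]
      ring
    refine Set.disjoint_left.mp hdis (SGN_mem a b _ hab hx) ?_
    exact ⟨1 - s, s, by linarith, h0, by ring, rfl⟩
  by_cases he : D a b c = D a b d
  · have h0 : D a b c = 0 := by
      have : D a b c * D a b c ≤ 0 := by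
        calc D a b c * D a b c = D a b c * D a b d := by rw [← he]
          _ ≤ 0 := hn'
      nlinarith [mul_self_nonneg (D a b c), mul_self_eq_zero.mp (le_antisymm this (mul_self_nonneg _))]
    exact key 0 le_rfl zero_le_one (by rw [h0]; ring)
  · have hne : D a b c - D a b d ≠ 0 := sub_ne_zero.mpr he
    have hsq : 0 < (D a b c - D a b d) ^ 2 := by positivity
    refine key (D a b c / (D a b c - D a b d)) ?_ ?_ ?_
    · have : D a b c / (D a b c - D a b d)
          = (D a b c * (D a b c - D a b d)) / (D a b c - D a b d) ^ 2 := by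
        field_simp
      rw [this]
      apply div_nonneg _ hsq.le
      nlinarith [mul_self_nonneg (D a b c)]
    · have : D a b c / (D a b c - D a b d)
          = 1 - (-(D a b d) * (D a b c - D a b d)) / (D a b c - D a b d) ^ 2 := by
        field_simp
        ring
      rw [this]
      have h2 : 0 ≤ (-(D a b d) * (D a b c - D a b d)) / (D a b c - D a b d) ^ 2 := by
        apply div_nonneg _ hsq.le
        nlinarith [mul_self_nonneg (D a b d)]
      linarith
    · field_simp
      ring

end Pool.Agent.helper14.AV
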